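import Pool.Agent.N312.KK.Sh
import Pool.Agent.N312.KK.Brg

/-! Kernels of Kirwan maps and the locally free locus (MP_c41d74_gt), Q1: a counterexample.
`U(2)` acts on the binary cubic forms `Sym³(ℂ²) = ℂ⁴`; a class of degree `2` is killed by all Kirwan
maps at central regular values, but not by the restriction to the locally free locus. -/

set_option autoImplicit false

namespace Pool.Agent.Results.MP_c41d74_gt.CubicForms

open Pool.Agent.N312.KS

/-- `U(2)` acts unitarily on `Sym³(ℂ²)`, with a proper moment map `mom` which has a central regular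
value with a non-empty level set. There are universal `U(2)`-spaces `P`, and for each of them there
is a class of degree `2` in the equivariant cohomology of `Sym³(ℂ²)` which is in the kernel of the
restriction to the level set of every central regular value, but not in the kernel of the
restriction to the locally free locus. -/
theorem result :
    ActionIsUnitary ∧ InfIsDerivative ∧ MomentMapEquation ∧ MomentMapIsProper ∧
    (∃ A ∈ centralRegularLevels, A.Nonempty) ∧
    (∃ (P : Type) (_ : TopologicalSpace P) (_ : MulAction (Matrix.unitaryGroup (Fin 2) ℂ) P),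
      IsUniversal (Matrix.unitaryGroup (Fin 2) ℂ) P) ∧
    ∀ (P : Type) [TopologicalSpace P] [MulAction (Matrix.unitaryGroup (Fin 2) ℂ) P],
      IsUniversal (Matrix.unitaryGroup (Fin 2) ℂ) P →
      KernelsDiffer (Matrix.unitaryGroup (Fin 2) ℂ) P 1 centralRegularLevels freeLocus := by
  refine ⟨fun g s t => ?_, Pool.Agent.N312.KK.deriv_act, Pool.Agent.N312.KK.deriv_mom,
    Pool.Agent.N312.KK.mom_scalar, ?_, ?_, ?_⟩
  · exact Pool.Agent.N312.KK.Inv.herm_act (Matrix.mem_unitaryGroup_iff'.1 g.2) s t
  · obtain ⟨α, h1, h2, h3⟩ := Pool.Agent.N312.KK.reg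
    exact ⟨level α, ⟨α, h1, h2, rfl⟩, h3⟩
  · obtain ⟨P, i1, i2, h⟩ := Pool.Agent.N312.KK.euu
    exact ⟨P, i1, i2, universal' h⟩
  · intro P _ _ hP
    exact kernelsDiffer P hP

end Pool.Agent.Results.MP_c41d74_gt.CubicForms
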